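import Pool.Agent.Helper66.FL.HNb

/-!
Project FL (helper9), package HN (helper66): the Harder-Narasimhan polygon with adapted bases.
-/

set_option autoImplicit false
set_option linter.unusedSectionVars false

namespace Pool.Agent.Helper66.FL

open FF Module Pool.Agent.Helper9.FJ Pool.Agent.Helper9.PP Pool.Agent.Helper9.FL

section blocks

variable {F : Type} [Field F] {R r' : ℕ}

/-- block upper triangular matrices -/
def ut (A : Matrix (Fin R) (Fin R) F) (B : Matrix (Fin R) (Fin r') F)
    (D : Matrix (Fin r') (Fin r') F) : Matrix (Fin (R + r')) (Fin (R + r')) F :=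
  (Matrix.fromBlocks A B (0 : Matrix (Fin r') (Fin R) F) D).submatrix finSumFinEquiv.symm
    finSumFinEquiv.symm

theorem ut_mul (A A' : Matrix (Fin R) (Fin R) F) (B B' : Matrix (Fin R) (Fin r') F)
    (D D' : Matrix (Fin r') (Fin r') F) : ut A B D * ut A' B' D' =
      ut (A * A') (A * B' + B * D') (D * D') := by
  unfold ut
  rw [Matrix.submatrix_mul_equiv, Matrix.fromBlocks_multiply]
  congr 1
  simp

theorem ut_one : ut (1 : Matrix (Fin R) (Fin R) F) 0 (1 : Matrix (Fin r') (Fin r') F) = 1 := by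
  unfold ut
  rw [Matrix.fromBlocks_one, Matrix.submatrix_one_equiv]

theorem ut_det (A : Matrix (Fin R) (Fin R) F) (B : Matrix (Fin R) (Fin r') F)
    (D : Matrix (Fin r') (Fin r') F) : (ut A B D).det = A.det * D.det := by
  unfold ut
  rw [Matrix.det_submatrix_equiv_self, Matrix.det_fromBlocks_zero₂₁]

@[simp] theorem ut_nn (A : Matrix (Fin R) (Fin R) F) (B : Matrix (Fin R) (Fin r') F)
    (D : Matrix (Fin r') (Fin r') F) (i j : Fin r') :
    ut A B D (Fin.natAdd R i) (Fin.natAdd R j) = D i j := by simp [ut]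

@[simp] theorem ut_nc (A : Matrix (Fin R) (Fin R) F) (B : Matrix (Fin R) (Fin r') F)
    (D : Matrix (Fin r') (Fin r') F) (i : Fin r') (j : Fin R) :
    ut A B D (Fin.natAdd R i) (Fin.castAdd r' j) = 0 := by simp [ut]

@[simp] theorem ut_cc (A : Matrix (Fin R) (Fin R) F) (B : Matrix (Fin R) (Fin r') F)
    (D : Matrix (Fin r') (Fin r') F) (i j : Fin R) :
    ut A B D (Fin.castAdd r' i) (Fin.castAdd r' j) = A i j := by simp [ut]

@[simp] theorem ut_cn (A : Matrix (Fin R) (Fin R) F) (B : Matrix (Fin R) (Fin r') F)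
    (D : Matrix (Fin r') (Fin r') F) (i : Fin R) (j : Fin r') :
    ut A B D (Fin.castAdd r' i) (Fin.natAdd R j) = B i j := by simp [ut]

theorem det_sub {r : ℕ} {C : Matrix (Fin r) (Fin r) F} (hC : C.det ≠ 0) {blk : Fin r → ℕ}
    (h : ∀ a b, C a b ≠ 0 → blk a ≤ blk b) (t : ℕ) :
    (C.submatrix (Subtype.val : {b // t ≤ blk b} → Fin r) Subtype.val).det ≠ 0 := by
  have h1 := Matrix.twoBlockTriangular_det' C (fun b => t ≤ blk b) (by
    intro i hi j hj
    by_contra h0
    exact hj (hi.trans (h i j h0)))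
  rw [h1] at hC
  exact left_ne_zero_of_mul hC

end blocks

variable {K : Type} [Field K] [Algebra ℂ K]

/-- the subbundles of a filtration -/
def subBn {r : ℕ} (C : Place ℂ K → Matrix (Fin r) (Fin r) K) (hC : ∀ P, (C P).det ≠ 0)
    (hf : {P | C P ≠ 1}.Finite) (blk : Fin r → ℕ) (h : ∀ P a b, C P a b ≠ 0 → blk a ≤ blk b)
    (t : ℕ) : Bn K {b : Fin r // t ≤ blk b} where
  B P := (C P).submatrix Subtype.val Subtype.val
  det_ne P := det_sub (hC P) (h P) t
  fin := hf.subset fun P hP h1 => hP (by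
    rw [h1]
    ext i j
    simp [Matrix.one_apply, Subtype.ext_iff])

variable [IsFF ℂ K]

/-- quotients of full rank -/
theorem ddeg_full {r : ℕ} (E : Bundle K r) {Λ : Matrix (Fin r) (Fin r) K} {d : Place ℂ K →₀ ℤ}
    (hd : IsQuot E Λ d) : ddeg d = ddeg E.detDiv := by
  classical
  have key : ∀ P, Λ.det ≠ 0 ∧ -d P = P.ord (E.B P).det + P.ord Λ.det := by
    intro P
    have h3 : ∀ S : Fin r → Fin r, ((E.B P * Λ).submatrix S id).det =
        ((1 : Matrix (Fin r) (Fin r) K).submatrix S id).det * (E.B P * Λ).det := by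
      intro S
      rw [← Matrix.det_mul]
      congr 1
      ext i j
      simp [Matrix.mul_apply, Matrix.one_apply]
    obtain ⟨S, hS0, hS⟩ := (hd P).2
    rw [h3] at hS0 hS
    have h4 := left_ne_zero_of_mul hS0
    have h5 := right_ne_zero_of_mul hS0
    have h6 : Ge P 0 ((1 : Matrix (Fin r) (Fin r) K).submatrix S id).det := ge_det fun i j => by
      simp only [Matrix.submatrix_apply, Matrix.one_apply]
      split_ifs
      · exact ge_one
      · exact ge_zero
    have h7 := (ge_iff h4).1 h6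
    rw [P.ord_mul h4 h5] at hS
    have h8 := (hd P).1 id
    rw [Matrix.submatrix_id_id, ge_iff h5] at h8
    have h9 : Λ.det ≠ 0 := by
      rw [Matrix.det_mul] at h5
      exact right_ne_zero_of_mul h5
    refine ⟨h9, ?_⟩
    rw [← P.ord_mul (E.det_ne P) h9, ← Matrix.det_mul]
    omega
  obtain ⟨P0, -⟩ := exists_place (k := ℂ) (K := K)
  have h1 : E.detDiv = d + divisor ℂ Λ.det := by
    ext P
    rw [Finsupp.add_apply, divisor_apply]
    have h2 : E.detDiv P = -P.ord (E.B P).det := rfl
    have h3 := (key P).2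
    rw [h2]
    omega
  rw [h1, ddeg_add, ddeg_divisor, add_zero]

/-- semistable bundles -/
theorem hn_semi {r : ℕ} (E : Bundle K r) {μ : ℝ} (hμ : SL (toBn E) μ)
    (hdeg : r * μ = ddeg E.detDiv) : ∃ h : HNd E, ∀ a, h.m a = μ := by
  classical
  refine ⟨{
    G := 1
    hG := by rw [Matrix.det_one]; exact one_ne_zero
    blk := fun _ => 0
    hblk := fun _ _ _ => le_rfl
    m := fun _ => μ
    hm := fun _ _ _ => le_rfl
    C := E.B
    hC := fun P => ⟨1, 1, fun i j => ?_, fun i j => ?_, by rw [Matrix.one_mul], by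
      rw [inv_one, Matrix.one_mul, Matrix.mul_one]⟩
    htri := fun _ _ _ _ => le_rfl
    F := fun a => subBn E.B E.det_ne E.fin (fun _ => 0) (fun _ _ _ _ => le_rfl) 0
    hF := fun _ _ => rfl
    hS := fun a => sl_reindex (F := toBn E) (Equiv.subtypeUnivEquiv fun _ => le_rfl)
      (fun P => rfl) hμ
    hdeg := by
      rw [Finset.sum_const, Finset.card_univ, Fintype.card_fin, nsmul_eq_mul, hdeg] }, fun _ => rfl⟩
  · rw [Matrix.one_apply]
    split_ifs
    · exact ge_one
    · exact ge_zero
  · rw [Matrix.one_apply]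
    split_ifs
    · exact ge_one
    · exact ge_zero

theorem fin_C {r : ℕ} {E : Bundle K r} (h : HNd E) (hr : 0 < r) : {P | h.C P ≠ 1}.Finite := by
  classical
  refine (h.F ⟨0, hr⟩).fin.subset fun P hP h1 => hP ?_
  rw [h.hF] at h1
  ext i j
  have hi : ∀ i : Fin r, h.blk ⟨0, hr⟩ ≤ h.blk i := fun i => h.hblk (Fin.mk_le_of_le_val (Nat.zero_le _))
  have h2 := congrFun (congrFun h1 ⟨i, hi i⟩) ⟨j, hi j⟩
  rw [Matrix.submatrix_apply] at h2
  rw [h2, Matrix.one_apply, Matrix.one_apply]
  simp [Subtype.ext_iff]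

/-- the step of the induction -/
theorem hn_step {R r' : ℕ} (hr' : 0 < r') (E : Bundle K (R + r')) {d : Place ℂ K →₀ ℤ}
    (s : Step E d) {μ : ℝ} (hμ : SL (toBn E) μ) (hd : (ddeg d : ℝ) = μ * R) (h1 : HNd s.K1)
    (hm1 : ∀ a, μ ≤ h1.m a) : ∃ h : HNd E, ∀ a, μ ≤ h.m a := by
  classical
  choose X U hX hU hXU hXC using s.hC
  choose X' U' hX' hU' hXU' hXC' using h1.hC
  let A : Place ℂ K → Matrix (Fin R) (Fin R) K := fun P =>
    (s.C P).submatrix (Fin.castAdd r') (Fin.castAdd r')
  let B : Place ℂ K → Matrix (Fin R) (Fin r') K := fun P =>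
    (s.C P).submatrix (Fin.castAdd r') (Fin.natAdd R)
  let D : Place ℂ K → Matrix (Fin r') (Fin r') K := fun P =>
    (s.C P).submatrix (Fin.natAdd R) (Fin.natAdd R)
  have hblocks : ∀ P, s.C P = ut (A P) (B P) (D P) := fun P => blocks _ (s.tri P)
  let C : Place ℂ K → Matrix (Fin (R + r')) (Fin (R + r')) K := fun P =>
    ut (A P) (B P * h1.G⁻¹) (h1.C P)
  let blk : Fin (R + r') → ℕ := Fin.addCases (fun _ => 0) fun i => h1.blk i + 1
  let m : Fin (R + r') → ℝ := Fin.addCases (fun _ => μ) fun i => h1.m i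
  have hG1 : IsUnit h1.G.det := isUnit_iff_ne_zero.2 h1.hG
  have hC1 : ∀ P, (h1.C P).det ≠ 0 := by
    intro P h0
    have h2 := congrArg Matrix.det (hXC' P)
    rw [Matrix.det_mul, Matrix.det_mul, h0, mul_zero] at h2
    refine mul_ne_zero (s.K1.det_ne P) ?_ h2
    intro h3
    have h4 := Matrix.det_nonsing_inv_mul_det h1.G hG1
    rw [h3, zero_mul] at h4
    exact zero_ne_one h4
  have hCdet : ∀ P, (C P).det ≠ 0 := fun P => by
    change (ut (A P) (B P * h1.G⁻¹) (h1.C P)).det ≠ 0
    rw [ut_det]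
    exact mul_ne_zero (s.hA P).1 (hC1 P)
  have hCfin : {P | C P ≠ 1}.Finite := by
    refine (s.fin.union (fin_C h1 hr')).subset fun P hP => ?_
    by_contra hcon
    simp only [Set.mem_union, Set.mem_ofPred_eq, not_or, not_not] at hcon
    apply hP
    have hA : A P = 1 := by
      change (s.C P).submatrix _ _ = 1
      rw [hcon.1]
      ext i j
      simp [Matrix.one_apply]
    have hB : B P = 0 := by
      change (s.C P).submatrix _ _ = 0
      rw [hcon.1]
      ext i j
      rw [Matrix.submatrix_apply, Matrix.one_apply, if_neg]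
      · rfl
      · intro h
        have := congrArg Fin.val h
        simp at this
        omega
    change ut (A P) (B P * h1.G⁻¹) (h1.C P) = 1
    rw [hA, hB, hcon.2, Matrix.zero_mul, ut_one]
  have hblk : Monotone blk := by
    intro a b
    refine Fin.addCases (fun a => ?_) (fun a => ?_) a <;>
      refine Fin.addCases (fun b => ?_) (fun b => ?_) b <;> intro hab
    · simp [blk]
    · simp [blk]
    · exfalso
      have := Fin.le_def.1 hab
      simp at this
      omega
    · simp only [blk, Fin.addCases_right]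
      have h2 : a ≤ b := by
        have := Fin.le_def.1 hab
        simp at this
        exact this
      exact Nat.add_le_add_right (h1.hblk h2) 1
  have hm : Monotone m := by
    intro a b
    refine Fin.addCases (fun a => ?_) (fun a => ?_) a <;>
      refine Fin.addCases (fun b => ?_) (fun b => ?_) b <;> intro hab
    · simp [m]
    · simp [m, hm1]
    · exfalso
      have := Fin.le_def.1 hab
      simp at this
      omega
    · simp only [m, Fin.addCases_right]
      have h2 : a ≤ b := by
        have := Fin.le_def.1 hab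
        simp at this
        exact this
      exact h1.hm h2
  have htri : ∀ P a b, C P a b ≠ 0 → blk a ≤ blk b := by
    intro P a b
    refine Fin.addCases (fun a => ?_) (fun a => ?_) a <;>
      refine Fin.addCases (fun b => ?_) (fun b => ?_) b <;> intro hab
    · simp [blk]
    · simp [blk]
    · exact absurd (ut_nc _ _ _ _ _) hab
    · simp only [blk, Fin.addCases_right]
      have h2 : C P (Fin.natAdd R a) (Fin.natAdd R b) = h1.C P a b := ut_nn _ _ _ _ _
      rw [h2] at hab
      exact Nat.add_le_add_right (h1.htri P a b hab) 1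
  let G : Matrix (Fin (R + r')) (Fin (R + r')) K := ut 1 0 h1.G * s.N⁻¹
  have hNu : IsUnit s.N.det := isUnit_iff_ne_zero.2 s.hN
  have hGinv : G⁻¹ = s.N * ut 1 0 h1.G⁻¹ := by
    refine Matrix.inv_eq_right_inv ?_
    change ut 1 0 h1.G * s.N⁻¹ * (s.N * ut 1 0 h1.G⁻¹) = 1
    rw [Matrix.mul_assoc, ← Matrix.mul_assoc s.N⁻¹, Matrix.nonsing_inv_mul _ hNu, Matrix.one_mul,
      ut_mul, Matrix.mul_nonsing_inv _ hG1]
    simp [ut_one]
  have hGC : ∀ P, E.B P * G⁻¹ = X P * ut 1 0 (X' P) * C P := by
    intro P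
    rw [hGinv, ← Matrix.mul_assoc, hXC P, Matrix.mul_assoc, Matrix.mul_assoc, hblocks P, ut_mul]
    congr 1
    change _ = ut 1 0 (X' P) * ut (A P) (B P * h1.G⁻¹) (h1.C P)
    rw [ut_mul]
    have h2 : D P * h1.G⁻¹ = X' P * h1.C P := hXC' P
    rw [h2]
    simp
  have hint : ∀ (M : Matrix (Fin r') (Fin r') K) (P : Place ℂ K), (∀ i j, Ge P 0 (M i j)) →
      ∀ i j, Ge P 0 (ut (1 : Matrix (Fin R) (Fin R) K) 0 M i j) := by
    intro M P hM i j
    refine Fin.addCases (fun i => ?_) (fun i => ?_) i <;>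
      refine Fin.addCases (fun j => ?_) (fun j => ?_) j
    · rw [ut_cc, Matrix.one_apply]
      split_ifs
      · exact ge_one
      · exact ge_zero
    · rw [ut_cn]
      exact ge_zero
    · rw [ut_nc]
      exact ge_zero
    · rw [ut_nn]
      exact hM i j
  have hmulint : ∀ (M M' : Matrix (Fin (R + r')) (Fin (R + r')) K) (P : Place ℂ K),
      (∀ i j, Ge P 0 (M i j)) → (∀ i j, Ge P 0 (M' i j)) → ∀ i j, Ge P 0 ((M * M') i j) := by
    intro M M' P hM hM' i j
    rw [Matrix.mul_apply]
    refine Ge.sum _ fun x _ => ?_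
    have := (hM i x).mul (hM' x j)
    rwa [add_zero] at this
  have hXU2 : ∀ P, X P * ut 1 0 (X' P) * (ut 1 0 (U' P) * U P) = 1 := by
    intro P
    rw [Matrix.mul_assoc, ← Matrix.mul_assoc (ut 1 0 (X' P)), ut_mul, hXU' P]
    simp [ut_one, hXU P]
  have hall : ∀ P, ∃ X U : Matrix (Fin (R + r')) (Fin (R + r')) K, (∀ i j, Ge P 0 (X i j)) ∧
      (∀ i j, Ge P 0 (U i j)) ∧ X * U = 1 ∧ E.B P * G⁻¹ = X * C P := fun P =>
    ⟨X P * ut 1 0 (X' P), ut 1 0 (U' P) * U P, hmulint _ _ P (hX P) (hint _ P (hX' P)),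
      hmulint _ _ P (hint _ P (hU' P)) (hU P), hXU2 P, hGC P⟩
  let F : ∀ a : Fin (R + r'), Bn K {b : Fin (R + r') // blk a ≤ blk b} := fun a =>
    subBn C hCdet hCfin blk htri (blk a)
  have hS : ∀ a, SL (F a) (m a) := by
    intro a
    refine Fin.addCases (fun i => ?_) (fun i => ?_) a
    · have h2 : SL (⟨C, hCdet, hCfin⟩ : Bn K (Fin (R + r'))) μ :=
        sl_congr (F := toBn E) (F' := ⟨C, hCdet, hCfin⟩) (H := G⁻¹) hall hμ
      have h3 : m (Fin.castAdd r' i) = μ := Fin.addCases_left _
      rw [h3]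
      exact sl_reindex (Equiv.subtypeUnivEquiv fun b => by simp [blk]) (fun P => rfl) h2
    · have h3 : m (Fin.natAdd R i) = h1.m i := Fin.addCases_right _
      rw [h3]
      let f : {b : Fin r' // h1.blk i ≤ h1.blk b} →
          {b : Fin (R + r') // blk (Fin.natAdd R i) ≤ blk b} := fun b =>
        ⟨Fin.natAdd R b.1, by simpa [blk] using b.2⟩
      have hf : Function.Bijective f := by
        refine ⟨fun x y hxy => ?_, fun y => ?_⟩
        · have h4 := congrArg (fun z => (z.1 : ℕ)) hxy
          simp only [f, Fin.val_natAdd] at h4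
          exact Subtype.ext (Fin.ext (by omega))
        · obtain ⟨y, hy⟩ := y
          revert hy
          refine Fin.addCases (fun b => ?_) (fun b => ?_) y
          · intro hy
            simp [blk] at hy
          · intro hy
            exact ⟨⟨b, by simpa [blk] using hy⟩, rfl⟩
      refine sl_reindex (F := h1.F i) (Equiv.ofBijective f hf).symm (fun P => ?_) (h1.hS i)
      ext x y
      obtain ⟨x, rfl⟩ := hf.2 x
      obtain ⟨y, rfl⟩ := hf.2 y
      rw [h1.hF, Matrix.submatrix_apply, Matrix.submatrix_apply,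
        Equiv.ofBijective_symm_apply_apply, Equiv.ofBijective_symm_apply_apply]
      exact ut_nn _ _ _ _ _
  refine ⟨{
    G := G
    hG := ?_
    blk := blk
    hblk := hblk
    m := m
    hm := hm
    C := C
    hC := hall
    htri := htri
    F := F
    hF := fun _ _ => rfl
    hS := hS
    hdeg := ?_ }, fun a => ?_⟩
  · change (ut 1 0 h1.G * s.N⁻¹).det ≠ 0
    rw [Matrix.det_mul, ut_det, Matrix.det_one, one_mul]
    refine mul_ne_zero h1.hG ?_
    intro h3
    have h4 := Matrix.det_nonsing_inv_mul_det s.N hNu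
    rw [h3, zero_mul] at h4
    exact zero_ne_one h4
  · rw [Fin.sum_univ_add]
    simp only [m, Fin.addCases_left, Fin.addCases_right]
    rw [h1.hdeg, Finset.sum_const, Finset.card_univ, Fintype.card_fin, nsmul_eq_mul, s.deg]
    push_cast
    rw [hd]
    ring
  · change μ ≤ m a
    refine Fin.addCases (fun i => ?_) (fun i => ?_) a
    · simp [m]
    · simp [m, hm1]

/-- **Package HN.** -/
theorem hn : S_HN := by
  classical
  intro K _ _ _ r
  induction r using Nat.strong_induction_on with
  | _ r ih =>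
    intro E hr
    obtain ⟨R, Λ, Y, d, hR, hY, hd, hsl⟩ := min' E hr
    have hRR : (0 : ℝ) < R := by exact_mod_cast hR
    have hdR : (ddeg d : ℝ) = ddeg d / R * R := by field_simp
    have hext : ∀ μ : ℝ, SL (toBn E) μ → μ ≤ ddeg d / R := by
      intro μ hμ
      rw [le_div_iff₀ hRR]
      exact hμ R Λ d hR hd
    have hle : R ≤ r := by
      obtain ⟨P0, -⟩ := exists_place (k := ℂ) (K := K)
      obtain ⟨S0, hS0, -⟩ := (hd P0).2
      have h1 : Function.Injective S0 := by
        intro i j hij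
        by_contra hne
        exact hS0 (Matrix.det_zero_of_row_eq hne (by
          funext x
          rw [Matrix.submatrix_apply, Matrix.submatrix_apply, hij]))
      have := Fintype.card_le_of_injective _ h1
      simpa using this
    obtain ⟨r', rfl⟩ := Nat.exists_eq_add_of_le hle
    rcases Nat.eq_zero_or_pos r' with h0 | h0
    · subst h0
      obtain ⟨h, hm⟩ := hn_semi E hsl (by
        have h2 := ddeg_full E (Λ := Λ) hd
        rw [← h2]
        push_cast
        rw [add_zero]
        field_simp)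
      exact ⟨h, fun μ hμ a => (hext μ hμ).trans (hm a).ge⟩
    · obtain ⟨s⟩ := exists_step E hd
      have hK : SL (toBn s.K1) (ddeg d / R) := by
        intro ρ Λ1 d1 hρ hd1
        obtain ⟨Λ', h'⟩ := s.quot hd1
        have h2 := hsl (R + ρ) Λ' (d + d1) (by omega) h'
        rw [ddeg_add] at h2
        push_cast at h2
        linarith
      obtain ⟨h1, hh1⟩ := ih r' (by omega) s.K1 h0
      obtain ⟨h, hm⟩ := hn_step h0 E s hsl hdR h1 (hh1 _ hK)
      exact ⟨h, fun μ hμ a => (hext μ hμ).trans (hm a)⟩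

end Pool.Agent.Helper66.FL
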