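import Pool.Agent.Helper9.PP.Min
import Pool.Agent.Helper9.FL.Stm

/-!
Project FL (helper9), package HN, first part (helper66): transport of quotients, completion of the
matrix of a quotient, adapted bases.
-/

set_option autoImplicit false
set_option linter.unusedSectionVars false

namespace Pool.Agent.Helper66.FL

open FF Module Pool.Agent.Helper9.FJ Pool.Agent.Helper9.PP Pool.Agent.Helper9.FL

variable {K : Type} [Field K] [Algebra ℂ K]

/-- the minors of a product with an integral matrix -/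
theorem ge_minor_mul {ι κ : Type} [Fintype ι] [DecidableEq ι] {ρ : ℕ} {P : Place ℂ K} {c : ℤ}
    {X : Matrix κ ι K} {M : Matrix ι (Fin ρ) K} (hX : ∀ i j, Ge P 0 (X i j))
    (hM : ∀ S : Fin ρ → ι, Ge P c (M.submatrix S id).det) (S : Fin ρ → κ) :
    Ge P c ((X * M).submatrix S id).det := by
  have h1 : (X * M).submatrix S id = X.submatrix S id * M := by
    ext i j
    simp [Matrix.mul_apply]
  rw [h1, det_mul_expand']
  refine Ge.sum _ fun S' _ => ?_
  have h4 := (Ge.prod0 (P := P) Finset.univ (F := fun i => X.submatrix S id i (S' i))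
    fun i _ => hX _ _).mul (hM S')
  rwa [zero_add] at h4

/-- transport of quotients -/
theorem isQt_congr {ι : Type} [Fintype ι] [DecidableEq ι] {F F' : Bn K ι} {H : Matrix ι ι K}
    (hX : ∀ P, ∃ X U : Matrix ι ι K, (∀ i j, Ge P 0 (X i j)) ∧ (∀ i j, Ge P 0 (U i j)) ∧
      X * U = 1 ∧ F.B P * H = X * F'.B P) {ρ : ℕ} {Λ : Matrix ι (Fin ρ) K} {d : Place ℂ K →₀ ℤ}
    (h : IsQt F' Λ d) : IsQt F (H * Λ) d := by
  intro P
  obtain ⟨X, U, hXi, hUi, hXU, he⟩ := hX P
  have hUX : U * X = 1 := mul_eq_one_comm.1 hXU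
  have h1 : F.B P * (H * Λ) = X * (F'.B P * Λ) := by
    rw [← Matrix.mul_assoc, he, Matrix.mul_assoc]
  have h2 : F'.B P * Λ = U * (F.B P * (H * Λ)) := by
    rw [h1, ← Matrix.mul_assoc, hUX, Matrix.one_mul]
  have h3 : ∀ S : Fin ρ → ι, Ge P (-d P) ((F.B P * (H * Λ)).submatrix S id).det := by
    intro S
    rw [h1]
    exact ge_minor_mul hXi (h P).1 S
  refine ⟨h3, ?_⟩
  by_contra hcon
  push Not at hcon
  have h4 : ∀ S : Fin ρ → ι, Ge P (-d P + 1) ((F.B P * (H * Λ)).submatrix S id).det := by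
    intro S
    by_cases h0 : ((F.B P * (H * Λ)).submatrix S id).det = 0
    · exact Or.inl h0
    · right
      have h5 := (ge_iff h0).1 (h3 S)
      have h6 := hcon S h0
      omega
  obtain ⟨S, hS0, hS⟩ := (h P).2
  have h7 := ge_minor_mul (P := P) (c := -d P + 1) hUi h4 S
  rw [← h2, ge_iff hS0, hS] at h7
  omega

theorem sl_congr [IsFF ℂ K] {ι : Type} [Fintype ι] [DecidableEq ι] {F F' : Bn K ι}
    {H : Matrix ι ι K}
    (hX : ∀ P, ∃ X U : Matrix ι ι K, (∀ i j, Ge P 0 (X i j)) ∧ (∀ i j, Ge P 0 (U i j)) ∧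
      X * U = 1 ∧ F.B P * H = X * F'.B P) {μ : ℝ} (h : SL F μ) : SL F' μ :=
  fun ρ _Λ d hρ hd => h ρ _ d hρ (isQt_congr hX hd)

/-- reindexing -/
theorem sl_reindex [IsFF ℂ K] {ι κ : Type} [Fintype ι] [DecidableEq ι] [Fintype κ] [DecidableEq κ]
    {F : Bn K ι} {F' : Bn K κ} (e : κ ≃ ι) (he : ∀ P, F'.B P = (F.B P).submatrix e e) {μ : ℝ}
    (h : SL F μ) : SL F' μ := by
  intro ρ Λ d hρ hd
  refine h ρ (Λ.submatrix e.symm id) d hρ fun P => ?_
  have h1 : F'.B P * Λ = (F.B P * Λ.submatrix e.symm id).submatrix e id := by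
    rw [he]
    ext i j
    simp only [Matrix.mul_apply, Matrix.submatrix_apply, id]
    rw [← Equiv.sum_comp e]
    simp
  have h2 : ∀ S : Fin ρ → ι, (F.B P * Λ.submatrix e.symm id).submatrix S id =
      (F'.B P * Λ).submatrix (e.symm ∘ S) id := by
    intro S
    rw [h1]
    ext i j
    simp [Matrix.submatrix_apply]
  refine ⟨fun S => ?_, ?_⟩
  · rw [h2]
    exact (hd P).1 _
  · obtain ⟨S, hS⟩ := (hd P).2
    refine ⟨e ∘ S, ?_⟩
    have h3 : e.symm ∘ e ∘ S = S := by
      funext i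
      simp
    rw [h2, h3]
    exact hS

/-- the order of the determinant of an integral matrix with integral inverse -/
theorem ord_det_unit {ι : Type} [Fintype ι] [DecidableEq ι] {P : Place ℂ K} {X U : Matrix ι ι K}
    (hX : ∀ i j, Ge P 0 (X i j)) (hU : ∀ i j, Ge P 0 (U i j)) (h : X * U = 1) :
    X.det ≠ 0 ∧ P.ord X.det = 0 := by
  have h1 : X.det * U.det = 1 := by rw [← Matrix.det_mul, h, Matrix.det_one]
  have hX0 : X.det ≠ 0 := left_ne_zero_of_mul_eq_one h1
  have hU0 : U.det ≠ 0 := right_ne_zero_of_mul_eq_one h1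
  have h2 := P.ord_mul hX0 hU0
  rw [h1, P.ord_one] at h2
  have h3 := (ge_iff hX0).1 (ge_det hX)
  have h4 := (ge_iff hU0).1 (ge_det hU)
  exact ⟨hX0, by omega⟩

/-- completion of the matrix of a quotient -/
theorem complete {F : Type} [Field F] {R r' : ℕ} {Λ : Matrix (Fin (R + r')) (Fin R) F}
    {Y : Matrix (Fin R) (Fin (R + r')) F} (hY : Y * Λ = 1) :
    ∃ N : Matrix (Fin (R + r')) (Fin (R + r')) F, N.det ≠ 0 ∧
      ∀ i j, N i (Fin.castAdd r' j) = Λ i j := by
  classical
  let v : Fin R → (Fin (R + r') → F) := fun j i => Λ i j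
  have hv : LinearIndependent F v := by
    rw [Fintype.linearIndependent_iff]
    intro g hg j
    have h1 : Λ.mulVec g = 0 := by
      funext i
      have h2 := congrFun hg i
      simp only [v, Finset.sum_apply, Pi.smul_apply, smul_eq_mul, Pi.zero_apply] at h2
      rw [Matrix.mulVec, dotProduct, Pi.zero_apply, ← h2]
      exact Finset.sum_congr rfl fun x _ => mul_comm _ _
    have h3 : (Y * Λ).mulVec g = 0 := by
      rw [← Matrix.mulVec_mulVec, h1, Matrix.mulVec_zero]
    rw [hY, Matrix.one_mulVec] at h3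
    exact congrFun h3 j
  obtain ⟨W', hW'⟩ := Submodule.exists_isCompl (Submodule.span F (Set.range v))
  have hfin : Module.finrank F W' = r' := by
    have h1 := Submodule.finrank_add_eq_of_isCompl hW'
    rw [finrank_span_eq_card hv] at h1
    simp at h1
    omega
  let b' : Module.Basis (Fin r') F W' := Module.finBasisOfFinrankEq F W' hfin
  let b : Module.Basis (Fin (R + r')) F (Fin (R + r') → F) :=
    (((Module.Basis.span hv).prod b').map (Submodule.prodEquivOfIsCompl _ _ hW')).reindex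
      finSumFinEquiv
  refine ⟨Matrix.of fun i j => b j i, ?_, fun i j => ?_⟩
  · have h1 := (Pi.basisFun F (Fin (R + r'))).isUnit_det b
    rw [Module.Basis.det_apply] at h1
    have h2 : (Pi.basisFun F (Fin (R + r'))).toMatrix b = Matrix.of fun i j => b j i := by
      ext i j
      simp [Module.Basis.toMatrix_apply]
    rw [h2] at h1
    exact h1.ne_zero
  · change b (Fin.castAdd r' j) i = Λ i j
    have h1 : b (Fin.castAdd r' j) = v j := by
      simp only [b, Module.Basis.reindex_apply, finSumFinEquiv_symm_apply_castAdd,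
        Module.Basis.map_apply]
      rw [Submodule.coe_prodEquivOfIsCompl']
      simp [Module.Basis.span_apply]
    rw [h1]

/-- bases adapted to a filtration in two steps -/
theorem adapted {r R r' : ℕ} (hr : r = R + r') (E : Bundle K r) {N : Matrix (Fin r) (Fin r) K}
    (hN : N.det ≠ 0) (P : Place ℂ K) :
    ∃ C X U : Matrix (Fin r) (Fin r) K, (∀ i j, Ge P 0 (X i j)) ∧ (∀ i j, Ge P 0 (U i j)) ∧
      X * U = 1 ∧ E.B P * N = X * C ∧ (∀ i j, C i j ≠ 0 → (i : ℕ) ≤ j) ∧
      (E.B P = 1 → (∀ i j, Ge P 0 (N i j)) → (∀ i j, Ge P 0 (N⁻¹ i j)) → C = 1) := by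
  classical
  by_cases hgood : E.B P = 1 ∧ (∀ i j, Ge P 0 (N i j)) ∧ (∀ i j, Ge P 0 (N⁻¹ i j))
  · refine ⟨1, N, N⁻¹, hgood.2.1, hgood.2.2, Matrix.mul_nonsing_inv _ (isUnit_iff_ne_zero.2 hN), ?_,
      fun i j h => ?_, fun _ _ _ => rfl⟩
    · rw [hgood.1, Matrix.one_mul, Matrix.mul_one]
    · rw [Matrix.one_apply] at h
      by_cases hij : i = j
      · exact le_of_eq (by rw [hij])
      · exact absurd (if_neg hij) h
  · have hM : (E.B P * N).det ≠ 0 := by
      rw [Matrix.det_mul]
      exact mul_ne_zero (E.det_ne P) hN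
    obtain ⟨C, U, X, hU, hX, hC, hXC, htri⟩ := hermite P hM (lab := fun i : Fin r => r - 1 - i) (by
      intro i j hij
      have hi := i.2
      have hj := j.2
      simp only at hij
      exact Fin.ext (by omega))
    refine ⟨C, X, U, hX, hU, ?_, hXC, fun i j h => ?_, fun h1 h2 h3 => absurd ⟨h1, h2, h3⟩ hgood⟩
    · have h1 : X * U * (E.B P * N) = E.B P * N := by
        rw [Matrix.mul_assoc, ← hC, ← hXC]
      have h2 : X * U * (E.B P * N) * (E.B P * N)⁻¹ = E.B P * N * (E.B P * N)⁻¹ := by rw [h1]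
      rwa [Matrix.mul_assoc (X * U), Matrix.mul_nonsing_inv _ (isUnit_iff_ne_zero.2 hM),
        Matrix.mul_one] at h2
    · have h1 := htri i j h
      have hi := i.2
      have hj := j.2
      omega

/-- for almost all places the entries of a matrix are integral -/
theorem fin_int [IsFF ℂ K] {ι κ : Type} [Finite ι] [Finite κ] (N : Matrix ι κ K) :
    {P : Place ℂ K | ¬ ∀ i j, Ge P 0 (N i j)}.Finite := by
  refine (Set.finite_iUnion fun x : ι × κ => finite_support (k := ℂ) (N x.1 x.2)).subset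
    fun P hP => ?_
  rw [Set.mem_ofPred_eq] at hP
  push Not at hP
  obtain ⟨i, j, hij⟩ := hP
  rw [Set.mem_iUnion]
  refine ⟨(i, j), ?_⟩
  rw [Set.mem_ofPred_eq]
  intro h0
  exact hij (Or.inr h0.ge)

end Pool.Agent.Helper66.FL
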