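import Pool.Agent.Helper66.FL.HNa

/-!
Project FL (helper9), package HN, second part (helper66): the kernel of a quotient.
-/

set_option autoImplicit false
set_option linter.unusedSectionVars false

namespace Pool.Agent.Helper66.FL

open FF Module Pool.Agent.Helper9.FJ Pool.Agent.Helper9.PP Pool.Agent.Helper9.FL

variable {K : Type} [Field K] [Algebra ℂ K]

/-- a matrix with a nonzero minor of minimal order is an integral matrix times that minor -/
theorem factor_minor {F : Type} [Field F] [Algebra ℂ F] {P : Place ℂ F} {n ρ : ℕ}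
    {M : Matrix (Fin n) (Fin ρ) F} {c : ℤ} {S : Fin ρ → Fin n}
    (hM : ∀ S' : Fin ρ → Fin n, Ge P c (M.submatrix S' id).det)
    (h0 : (M.submatrix S id).det ≠ 0) (hS : P.ord (M.submatrix S id).det = c) :
    ∃ V : Matrix (Fin n) (Fin ρ) F, (∀ i j, Ge P 0 (V i j)) ∧ M = V * M.submatrix S id := by
  classical
  refine ⟨M * (M.submatrix S id)⁻¹, fun i j => ?_, ?_⟩
  · have h1 : (M.submatrix S id).det * (M * (M.submatrix S id)⁻¹) i j =
        (M.submatrix (Function.update S j i) id).det := by
      have h2 : (M.submatrix (Function.update S j i) id) =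
          (M.submatrix S id).updateRow j (M i) := by
        ext a b
        by_cases ha : a = j
        · subst ha
          simp
        · simp [ha]
      rw [h2, ← Matrix.cramer_transpose_apply, Matrix.cramer_eq_adjugate_mulVec,
        ← Matrix.adjugate_transpose, Matrix.mulVec_transpose, Matrix.inv_def, Matrix.mul_apply]
      simp only [Matrix.vecMul, dotProduct, Matrix.smul_apply, smul_eq_mul, Ring.inverse_eq_inv']
      rw [Finset.mul_sum]
      refine Finset.sum_congr rfl fun x _ => ?_
      field_simp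
    refine Ge.of_mul (a := (M.submatrix S id).det) h0 ?_
    rw [h1, hS, add_zero]
    exact hM _
  · rw [Matrix.mul_assoc, Matrix.nonsing_inv_mul _ (isUnit_iff_ne_zero.2 h0), Matrix.mul_one]

/-- the data of the step: an exact sequence `0 → K1 → E → Q → 0` with adapted bases -/
structure Step {R r' : ℕ} (E : Bundle K (R + r')) (d : Place ℂ K →₀ ℤ) where
  N : Matrix (Fin (R + r')) (Fin (R + r')) K
  hN : N.det ≠ 0
  C : Place ℂ K → Matrix (Fin (R + r')) (Fin (R + r')) K
  hC : ∀ P, ∃ X U : Matrix (Fin (R + r')) (Fin (R + r')) K, (∀ i j, Ge P 0 (X i j)) ∧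
    (∀ i j, Ge P 0 (U i j)) ∧ X * U = 1 ∧ E.B P * N = X * C P
  tri : ∀ P i j, C P (Fin.natAdd R i) (Fin.castAdd r' j) = 0
  fin : {P | C P ≠ 1}.Finite
  hA : ∀ P, ((C P).submatrix (Fin.castAdd r') (Fin.castAdd r')).det ≠ 0 ∧
    P.ord ((C P).submatrix (Fin.castAdd r') (Fin.castAdd r')).det = -d P
  hD : ∀ P, ((C P).submatrix (Fin.natAdd R) (Fin.natAdd R)).det ≠ 0

theorem blocks {F : Type} [Field F] {R r' : ℕ}
    (M : Matrix (Fin (R + r')) (Fin (R + r')) F)
    (h : ∀ i j, M (Fin.natAdd R i) (Fin.castAdd r' j) = 0) :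
    M = (Matrix.fromBlocks (M.submatrix (Fin.castAdd r') (Fin.castAdd r'))
      (M.submatrix (Fin.castAdd r') (Fin.natAdd R)) 0
      (M.submatrix (Fin.natAdd R) (Fin.natAdd R))).submatrix finSumFinEquiv.symm
        finSumFinEquiv.symm := by
  ext i j
  refine Fin.addCases (fun a => ?_) (fun a => ?_) i <;>
    refine Fin.addCases (fun b => ?_) (fun b => ?_) j <;> simp [h]

theorem det_blocks {F : Type} [Field F] {R r' : ℕ}
    (M : Matrix (Fin (R + r')) (Fin (R + r')) F)
    (h : ∀ i j, M (Fin.natAdd R i) (Fin.castAdd r' j) = 0) :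
    M.det = (M.submatrix (Fin.castAdd r') (Fin.castAdd r')).det *
      (M.submatrix (Fin.natAdd R) (Fin.natAdd R)).det := by
  conv_lhs => rw [blocks M h]
  rw [Matrix.det_submatrix_equiv_self, Matrix.det_fromBlocks_zero₂₁]

/-- existence of the step -/
theorem exists_step [IsFF ℂ K] {R r' : ℕ} (E : Bundle K (R + r'))
    {Λ : Matrix (Fin (R + r')) (Fin R) K} {d : Place ℂ K →₀ ℤ} (hd : IsQuot E Λ d) :
    Nonempty (Step E d) := by
  classical
  obtain ⟨P0, -⟩ := exists_place (k := ℂ) (K := K)
  obtain ⟨S0, hS0, -⟩ := (hd P0).2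
  obtain ⟨Y, hY⟩ := exists_left hS0
  obtain ⟨N, hN, hNΛ⟩ := complete hY
  choose C X U hX hU hXU hXC htri hone using fun P => adapted rfl E hN P
  have tri : ∀ P i j, C P (Fin.natAdd R i) (Fin.castAdd r' j) = 0 := by
    intro P i j
    by_contra h
    have h1 := htri P _ _ h
    have h2 := j.2
    simp at h1
    omega
  have hdet : ∀ P, (C P).det ≠ 0 := by
    intro P h0
    have h1 := congrArg Matrix.det (hXC P)
    rw [Matrix.det_mul, Matrix.det_mul, h0, mul_zero] at h1
    exact mul_ne_zero (E.det_ne P) hN h1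
  have hAD : ∀ P, ((C P).submatrix (Fin.castAdd r') (Fin.castAdd r')).det ≠ 0 ∧
      ((C P).submatrix (Fin.natAdd R) (Fin.natAdd R)).det ≠ 0 := by
    intro P
    have h1 := hdet P
    rw [det_blocks _ (tri P)] at h1
    exact ⟨left_ne_zero_of_mul h1, right_ne_zero_of_mul h1⟩
  have fin : {P | C P ≠ 1}.Finite := by
    refine ((E.fin.union (fin_int N)).union (fin_int N⁻¹)).subset fun P hP => ?_
    by_contra hcon
    simp only [Set.mem_union, Set.mem_ofPred_eq, not_or, not_not] at hcon
    exact hP (hone P hcon.1.1 hcon.1.2 hcon.2)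
  refine ⟨⟨N, hN, C, fun P => ⟨X P, U P, hX P, hU P, hXU P, hXC P⟩, tri, fin, fun P => ?_,
    fun P => (hAD P).2⟩⟩
  refine ⟨(hAD P).1, ?_⟩
  -- the quotient in the adapted basis
  let FC : Bn K (Fin (R + r')) := ⟨C, hdet, fin⟩
  have h1 : IsQt FC (N⁻¹ * Λ) d := by
    refine isQt_congr (F' := toBn E) (fun P => ⟨U P, X P, hU P, hX P,
      mul_eq_one_comm.1 (hXU P), ?_⟩) hd
    change C P * N⁻¹ = U P * E.B P
    have h2 : U P * (E.B P * N) = C P := by
      rw [hXC P, ← Matrix.mul_assoc, mul_eq_one_comm.1 (hXU P), Matrix.one_mul]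
    rw [← h2, Matrix.mul_assoc, Matrix.mul_assoc, Matrix.mul_nonsing_inv _
      (isUnit_iff_ne_zero.2 hN), Matrix.mul_one]
  let J : Matrix (Fin (R + r')) (Fin R) K := Matrix.of fun i j => if i = Fin.castAdd r' j then 1 else 0
  have hJ : N⁻¹ * Λ = J := by
    have h2 : Λ = N * J := by
      ext i j
      simp [J, Matrix.mul_apply, hNΛ]
    rw [h2, ← Matrix.mul_assoc, Matrix.nonsing_inv_mul _ (isUnit_iff_ne_zero.2 hN), Matrix.one_mul]
  have hCJ : C P * J = J * (C P).submatrix (Fin.castAdd r') (Fin.castAdd r') := by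
    ext i j
    refine Fin.addCases (fun a => ?_) (fun a => ?_) i
    · simp [J, Matrix.mul_apply]
    · simp only [J, Matrix.mul_apply, Matrix.of_apply]
      rw [Finset.sum_eq_single (Fin.castAdd r' j)]
      · rw [tri, zero_mul, eq_comm]
        refine Finset.sum_eq_zero fun x _ => ?_
        rw [if_neg, zero_mul]
        intro h
        have := congrArg Fin.val h
        simp at this
        omega
      · intro b _ hb
        rw [if_neg hb, mul_zero]
      · intro h
        exact absurd (Finset.mem_univ _) h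
  have h2 := h1 P
  rw [hJ] at h2
  change (∀ S : Fin R → Fin (R + r'), Ge P (-d P) ((C P * J).submatrix S id).det) ∧
    ∃ S : Fin R → Fin (R + r'), ((C P * J).submatrix S id).det ≠ 0 ∧
      P.ord ((C P * J).submatrix S id).det = -d P at h2
  have h3 : ∀ S : Fin R → Fin (R + r'), ((C P * J).submatrix S id).det =
      (J.submatrix S id).det * ((C P).submatrix (Fin.castAdd r') (Fin.castAdd r')).det := by
    intro S
    rw [hCJ, ← Matrix.det_mul]
    congr 1
  have h4 : Ge P (-d P) ((C P).submatrix (Fin.castAdd r') (Fin.castAdd r')).det := by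
    have h5 := h2.1 (Fin.castAdd r')
    rw [h3] at h5
    have h6 : J.submatrix (Fin.castAdd r') id = 1 := by
      ext i j
      simp [J, Matrix.one_apply]
    rwa [h6, Matrix.det_one, one_mul] at h5
  obtain ⟨S, hS0', hS⟩ := h2.2
  rw [h3] at hS0' hS
  have h7 : Ge P 0 (J.submatrix S id).det := ge_det fun i j => by
    simp only [J, Matrix.submatrix_apply, Matrix.of_apply]
    split_ifs
    · exact ge_one
    · exact ge_zero
  have h8 := left_ne_zero_of_mul hS0'
  rw [P.ord_mul h8 (hAD P).1] at hS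
  have h9 := (ge_iff h8).1 h7
  have h10 := (ge_iff (hAD P).1).1 h4
  omega

namespace Step

variable {R r' : ℕ} {E : Bundle K (R + r')} {d : Place ℂ K →₀ ℤ} (s : Step E d)

/-- the kernel -/
def K1 : Bundle K r' where
  B P := (s.C P).submatrix (Fin.natAdd R) (Fin.natAdd R)
  det_ne := s.hD
  fin := s.fin.subset fun P hP h => hP (by
    rw [h]
    ext i j
    simp [Matrix.one_apply])

include s in
theorem det_ne (P : Place ℂ K) : (s.C P).det ≠ 0 := by
  rw [det_blocks _ (s.tri P)]
  exact mul_ne_zero (s.hA P).1 (s.hD P)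

/-- degrees are additive -/
theorem deg [IsFF ℂ K] : ddeg E.detDiv = ddeg d + ddeg s.K1.detDiv := by
  have h1 : E.detDiv = d + s.K1.detDiv + divisor ℂ s.N.det := by
    ext P
    rw [Finsupp.add_apply, Finsupp.add_apply, divisor_apply]
    obtain ⟨X, U, hX, hU, hXU, he⟩ := s.hC P
    have h2 := congrArg Matrix.det he
    rw [Matrix.det_mul, Matrix.det_mul, det_blocks _ (s.tri P)] at h2
    have h3 := congrArg P.ord h2
    have hA := s.hA P
    have hx := ord_det_unit hX hU hXU
    rw [P.ord_mul (E.det_ne P) s.hN, P.ord_mul hx.1 (mul_ne_zero hA.1 (s.hD P)),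
      P.ord_mul hA.1 (s.hD P), hx.2, hA.2] at h3
    have h4 : E.detDiv P = -P.ord (E.B P).det := rfl
    have h5 : s.K1.detDiv P = -P.ord ((s.C P).submatrix (Fin.natAdd R) (Fin.natAdd R)).det := rfl
    rw [h4, h5]
    omega
  rw [h1, ddeg_add, ddeg_add, ddeg_divisor, add_zero]

/-- quotients of the kernel -/
theorem quot {ρ : ℕ} {Λ1 : Matrix (Fin r') (Fin ρ) K} {d1 : Place ℂ K →₀ ℤ}
    (h : IsQuot s.K1 Λ1 d1) : ∃ Λ' : Matrix (Fin (R + r')) (Fin (R + ρ)) K,
      IsQuot E Λ' (d + d1) := by
  classical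
  let L : Matrix (Fin (R + r')) (Fin (R + ρ)) K :=
    (Matrix.fromBlocks 1 0 0 Λ1).submatrix finSumFinEquiv.symm finSumFinEquiv.symm
  refine ⟨s.N * L, ?_⟩
  have h1 : IsQt (⟨s.C, s.det_ne, s.fin⟩ : Bn K (Fin (R + r'))) L (d + d1) := by
    intro P
    change (∀ S : Fin (R + ρ) → Fin (R + r'),
      Ge P (-(d + d1) P) ((s.C P * L).submatrix S id).det) ∧
      ∃ S : Fin (R + ρ) → Fin (R + r'), ((s.C P * L).submatrix S id).det ≠ 0 ∧
        P.ord ((s.C P * L).submatrix S id).det = -(d + d1) P
    obtain ⟨S1, hS10, hS1⟩ := (h P).2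
    obtain ⟨V, hV, hVe⟩ := factor_minor (h P).1 hS10 hS1
    have hA := s.hA P
    set A := (s.C P).submatrix (Fin.castAdd r') (Fin.castAdd r') with hAdef
    set B := (s.C P).submatrix (Fin.castAdd r') (Fin.natAdd R) with hBdef
    set D := (s.C P).submatrix (Fin.natAdd R) (Fin.natAdd R) with hDdef
    change D * Λ1 = V * (D * Λ1).submatrix S1 id at hVe
    change ((D * Λ1).submatrix S1 id).det ≠ 0 at hS10
    change P.ord ((D * Λ1).submatrix S1 id).det = -d1 P at hS1
    set T := (Matrix.fromBlocks A (B * Λ1) 0 ((D * Λ1).submatrix S1 id)) with hT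
    have hTdet : T.det ≠ 0 ∧ P.ord T.det = -(d + d1) P := by
      rw [hT, Matrix.det_fromBlocks_zero₂₁]
      refine ⟨mul_ne_zero hA.1 hS10, ?_⟩
      rw [P.ord_mul hA.1 hS10, hA.2, hS1, Finsupp.add_apply]
      ring
    have h2 : s.C P * L = ((Matrix.fromBlocks 1 0 0 V).submatrix finSumFinEquiv.symm id :
        Matrix (Fin (R + r')) (Fin R ⊕ Fin ρ) K) * T.submatrix id finSumFinEquiv.symm := by
      have h3 : s.C P = (Matrix.fromBlocks A B 0 D).submatrix finSumFinEquiv.symm
        finSumFinEquiv.symm := blocks _ (s.tri P)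
      rw [h3]
      change _ * (Matrix.fromBlocks 1 0 0 Λ1).submatrix finSumFinEquiv.symm
        finSumFinEquiv.symm = _
      rw [Matrix.submatrix_mul_equiv]
      have h4 : (Matrix.fromBlocks (1 : Matrix (Fin R) (Fin R) K) 0 0 V) * T =
          Matrix.fromBlocks A (B * Λ1) 0 (D * Λ1) := by
        rw [hT, Matrix.fromBlocks_multiply]
        simp only [Matrix.one_mul, Matrix.zero_mul, Matrix.mul_zero, add_zero, zero_add]
        rw [← hVe]
      have h5 : Matrix.fromBlocks A B (0 : Matrix (Fin r') (Fin R) K) D *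
          Matrix.fromBlocks (1 : Matrix (Fin R) (Fin R) K) (0 : Matrix (Fin R) (Fin ρ) K)
            (0 : Matrix (Fin r') (Fin R) K) Λ1 =
          Matrix.fromBlocks A (B * Λ1) 0 (D * Λ1) := by
        rw [Matrix.fromBlocks_multiply]
        simp
      rw [h5, ← h4]
      ext i j
      simp [Matrix.mul_apply]
    have h6 : ∀ S : Fin (R + ρ) → Fin (R + r'), ((s.C P * L).submatrix S id).det =
        ((Matrix.fromBlocks (1 : Matrix (Fin R) (Fin R) K) 0 0 V).submatrix
          (finSumFinEquiv.symm ∘ S) finSumFinEquiv.symm).det * T.det := by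
      intro S
      rw [h2, ← Matrix.det_submatrix_equiv_self finSumFinEquiv.symm T, ← Matrix.det_mul,
        Matrix.submatrix_mul_equiv]
      congr 1
    refine ⟨fun S => ?_, fun k => finSumFinEquiv (Sum.map id S1 (finSumFinEquiv.symm k)), ?_⟩
    · rw [h6]
      have h7 : Ge P 0 ((Matrix.fromBlocks (1 : Matrix (Fin R) (Fin R) K) 0 0 V).submatrix
          (finSumFinEquiv.symm ∘ S) finSumFinEquiv.symm).det := by
        refine ge_det fun i j => ?_
        rw [Matrix.submatrix_apply]
        rcases (finSumFinEquiv.symm ∘ S) i with a | a <;>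
          rcases finSumFinEquiv.symm j with b | b
        · simp only [Matrix.fromBlocks_apply₁₁, Matrix.one_apply]
          split_ifs
          · exact ge_one
          · exact ge_zero
        · exact ge_zero
        · exact ge_zero
        · exact hV a b
      have h8 := h7.mul ((ge_iff hTdet.1).2 hTdet.2.ge)
      rwa [zero_add] at h8
    · have h9 : ((s.C P * L).submatrix (fun k => finSumFinEquiv (Sum.map id S1
          (finSumFinEquiv.symm k))) id).det = T.det := by
        rw [← Matrix.det_submatrix_equiv_self finSumFinEquiv.symm T]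
        congr 1
        have h3 : s.C P = (Matrix.fromBlocks A B 0 D).submatrix finSumFinEquiv.symm
          finSumFinEquiv.symm := blocks _ (s.tri P)
        rw [h3]
        change Matrix.submatrix (_ * (Matrix.fromBlocks 1 0 0 Λ1).submatrix finSumFinEquiv.symm
          finSumFinEquiv.symm) _ _ = _
        rw [Matrix.submatrix_mul_equiv, Matrix.fromBlocks_multiply]
        ext i j
        refine Fin.addCases (fun a => ?_) (fun a => ?_) i <;>
          refine Fin.addCases (fun b => ?_) (fun b => ?_) j <;> simp [hT]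
      rw [h9]
      exact hTdet
  refine isQt_congr (F := toBn E) (fun P => ?_) h1
  obtain ⟨X, U, hX, hU, hXU, he⟩ := s.hC P
  exact ⟨X, U, hX, hU, hXU, he⟩

end Step

end Pool.Agent.Helper66.FL
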